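import Pool.Agent.H63Fr.Final

namespace Pool.Agent.Results.MP_b26b83_nt.InverseSine

/-- Inverse-sine rigidity: `P` is a set of at least three positive integers with sum at most `q`,
`u p` is an inverse of `p` modulo `q`. -/
theorem result (q : ℕ) (P : Finset ℕ) (u : ℕ → ℕ) (hn : 3 ≤ P.card) (hpos : ∀ p ∈ P, 0 < p)
    (hsum : ∑ p ∈ P, p ≤ q) (hu : ∀ p ∈ P, p * u p ≡ 1 [MOD q])
    (hineq : ∀ y ∈ P, 2 / Real.sin (Real.pi / q)
      ≤ ∑ p ∈ P, 1 / |Real.sin (Real.pi * ((y : ℝ) * u p) / q)|) :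
    q = 2 ^ P.card - 1 ∧ (P = (Finset.range P.card).image (fun i => 2 ^ i) ∨
      P = insert (2 ^ (P.card - 1) - 1) ((Finset.range (P.card - 1)).image (fun i => 2 ^ i))) :=
  Pool.Agent.H63Fr.final q P u hn hpos hsum hu hineq

end Pool.Agent.Results.MP_b26b83_nt.InverseSine
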